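import Mathlib
import Pool.Agent.Helper11.PK.Defs

/-! # Project PK (MP_1f931d_al): packet FREEP -/

namespace Pool.Agent.Helper19.PK

universe u

/-- A proper subgroup of a finite `p`-group is in the kernel of a nontrivial homomorphism to
`ZMod p`. -/
theorem exists_char (p : ℕ) [Fact p.Prime] {E : Type*} [Group E] [Finite E] (hE : IsPGroup p E)
    (H : Subgroup E) (hH : H ≠ ⊤) :
    ∃ χ : E →* Multiplicative (ZMod p), H ≤ χ.ker ∧ χ ≠ 1 := by
  classical
  obtain h | ⟨M, hM, hHM⟩ := eq_top_or_exists_le_coatom H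
  · exact absurd h hH
  haveI : Group.IsNilpotent E := hE.isNilpotent
  haveI : M.Normal := Subgroup.NormalizerCondition.normal_of_coatom M
    Group.normalizerCondition_of_isNilpotent hM
  -- the index of `M` is `p`
  obtain ⟨m, hm⟩ := IsPGroup.iff_card.1 hE
  obtain ⟨n, hn⟩ := IsPGroup.iff_card.1 (hE.to_subgroup M)
  have hnm : n < m := by
    by_contra hcon
    have h1 : Nat.card E ≤ Nat.card M := by
      rw [hm, hn]
      exact Nat.pow_le_pow_right (Fact.out : p.Prime).pos (not_lt.1 hcon)
    have h2 : M = ⊤ := Subgroup.eq_top_of_le_card M h1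
    exact hM.1 h2
  obtain ⟨K, hK, hMK⟩ := Sylow.exists_subgroup_card_pow_succ (p := p) (n := n) (H := M)
    (by rw [hm]; exact pow_dvd_pow p hnm) hn
  have hKt : K = ⊤ := by
    apply hM.2
    refine lt_of_le_of_ne hMK ?_
    rintro rfl
    rw [hn] at hK
    have := Nat.pow_right_injective (Fact.out : p.Prime).two_le hK
    omega
  have hidx : Nat.card (E ⧸ M) = p := by
    have h1 : Nat.card E = Nat.card (E ⧸ M) * Nat.card M := Subgroup.card_eq_card_quotient_mul_card_subgroup M
    subst hKt
    rw [Subgroup.card_top, h1, hn, pow_succ, mul_comm] at hK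
    exact Nat.eq_of_mul_eq_mul_left (pow_pos (Fact.out : p.Prime).pos n) hK
  haveI := isCyclic_of_prime_card (p := p) hidx
  have e0 : Multiplicative (ZMod (Nat.card (E ⧸ M))) ≃* (E ⧸ M) := zmodCyclicMulEquiv inferInstance
  rw [hidx] at e0
  refine ⟨e0.symm.toMonoidHom.comp (QuotientGroup.mk' M), ?_, ?_⟩
  · intro x hx
    rw [MonoidHom.mem_ker]
    have : (QuotientGroup.mk' M) x = 1 := by
      rw [QuotientGroup.mk'_apply, QuotientGroup.eq_one_iff]
      exact hHM hx
    simp only [MonoidHom.comp_apply, this, map_one]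
  · intro h
    apply hM.1
    rw [eq_top_iff]
    intro x _
    have h1 : e0.symm ((QuotientGroup.mk' M) x) = 1 := DFunLike.congr_fun h x
    rw [MulEquiv.map_eq_one_iff, QuotientGroup.mk'_apply, QuotientGroup.eq_one_iff] at h1
    exact h1

/-- The standard basis generates the elementary abelian group. -/
theorem closure_ev (p : ℕ) [Fact p.Prime] (r : ℕ) :
    Subgroup.closure (Set.range fun j : Fin r =>
      (Multiplicative.ofAdd (Pi.single j 1) : Multiplicative (Fin r → ZMod p))) = ⊤ := by
  rw [eq_top_iff]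
  intro v _
  have hv : v = ∏ j : Fin r, (Multiplicative.ofAdd (Pi.single j 1 : Fin r → ZMod p)) ^
      ((Multiplicative.toAdd v) j).val := by
    apply Multiplicative.toAdd.injective
    rw [toAdd_prod]
    funext i
    rw [Finset.sum_apply, Finset.sum_eq_single i]
    · simp
    · intro b _ hb
      simp [hb.symm]
    · simp
  rw [hv]
  refine Subgroup.prod_mem _ fun j _ => Subgroup.pow_mem _ (Subgroup.subset_closure ?_) _
  exact ⟨j, rfl⟩

/-- **FREEP.** -/
theorem freep (p : ℕ) [Fact p.Prime] {L : Type u} [Group L]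
    (hlift : ∀ {Q₁ Q₂ : Type u} [Group Q₁] [Group Q₂] [Finite Q₁] [Finite Q₂]
      (_ : IsPGroup p Q₁) (_ : IsPGroup p Q₂) (θ : Q₂ →* Q₁) (_ : Function.Surjective θ)
      (φ : L →* Q₁), ∃ φ' : L →* Q₂, θ.comp φ' = φ) {r : ℕ}
    (hres : ∀ w : FreeGroup (Fin r), w ≠ 1 → ∃ (Q : Type) (_ : Group Q) (_ : Finite Q)
      (_ : IsPGroup p Q) (ψ : FreeGroup (Fin r) →* Q), ψ w ≠ 1)
    (a : Fin r → L) (χ : Fin r → L → ZMod p) (hχ : ∀ l g h, χ l (g * h) = χ l g + χ l h)
    (ha : ∀ l j, χ l (a j) = if j = l then 1 else 0) :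
    Function.Injective (FreeGroup.lift a : FreeGroup (Fin r) →* L) := by
  classical
  rw [injective_iff_map_eq_one]
  intro w hw
  by_contra hne
  obtain ⟨Q, _, _, hQ, ψ, hψ⟩ := hres w hne
  -- the elementary abelian quotient
  let V : Type := Multiplicative (Fin r → ZMod p)
  have hV : IsPGroup p V := by
    intro g
    refine ⟨1, ?_⟩
    apply Multiplicative.toAdd.injective
    rw [toAdd_pow, toAdd_one, pow_one]
    funext i
    simp
  have hQV : ∀ g : Q × V, ∃ k, g ^ p ^ k = 1 := by
    rintro ⟨g, v⟩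
    obtain ⟨k, hk⟩ := hQ g
    obtain ⟨l, hl⟩ := hV v
    refine ⟨k + l, ?_⟩
    rw [Prod.pow_mk, pow_add, pow_mul, hk, one_pow, mul_comm, pow_mul, hl, one_pow]
    rfl
  obtain ⟨N, hN⟩ := IsPGroup.iff_card.1 (show IsPGroup p (Q × V) from hQV)
  have hpow : ∀ g : Q × V, g ^ p ^ N = 1 := by
    intro g
    rw [← hN]
    exact pow_card_eq_one'
  -- the relatively free group
  let F := FreeGroup (Fin r)
  let T : Type := Fin r → Q × V
  let Φ : F →* (T → Q × V) := MonoidHom.pi fun t => FreeGroup.lift t
  have hΦ : ∀ x t, Φ x t = FreeGroup.lift t x := fun x t => rfl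
  let E : Subgroup (T → Q × V) := Φ.range
  have hEfin : Finite E := inferInstance
  have hE : IsPGroup p E := by
    intro g
    refine ⟨N, ?_⟩
    apply Subtype.ext
    funext t
    change (g.1 t) ^ p ^ N = 1
    exact hpow _
  let Φ' : F →* E := Φ.rangeRestrict
  have hΦ's : Function.Surjective Φ' := Φ.rangeRestrict_surjective
  have hΦ'1 : ∀ x, Φ' x = 1 ↔ ∀ t : T, FreeGroup.lift t x = 1 := by
    intro x
    constructor
    · intro h t
      have h1 := congrArg Subtype.val h
      exact congrFun h1 t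
    · intro h
      apply Subtype.ext
      funext t
      exact h t
  have hw1 : Φ' w ≠ 1 := by
    intro h
    have h1 := (hΦ'1 w).1 h (fun j => (ψ (FreeGroup.of j), 1))
    apply hψ
    have h2 : (MonoidHom.fst Q V).comp (FreeGroup.lift fun j => (ψ (FreeGroup.of j), (1 : V))) = ψ := by
      ext j
      simp
    rw [← h2, MonoidHom.comp_apply, h1, map_one]
  -- the map to the elementary abelian group
  let ev : Fin r → V := fun j => Multiplicative.ofAdd (Pi.single j 1)
  let θ : E →* V := (MonoidHom.snd Q V).comp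
    ((Pi.evalMonoidHom (fun _ : T => Q × V) (fun j => (1, ev j))).comp E.subtype)
  have hθ : ∀ j, θ (Φ' (FreeGroup.of j)) = ev j := by
    intro j
    change (Φ (FreeGroup.of j) (fun j => (1, ev j))).2 = ev j
    rw [hΦ]
    simp
  have hevgen : Subgroup.closure (Set.range ev) = ⊤ := closure_ev p r
  have hθs : Function.Surjective θ := by
    rw [← MonoidHom.range_eq_top, eq_top_iff, ← hevgen, Subgroup.closure_le]
    rintro _ ⟨j, rfl⟩
    exact ⟨_, hθ j⟩
  -- lift
  let φ : L →* V :=
    { toFun := fun g => Multiplicative.ofAdd fun l => χ l g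
      map_one' := by
        apply Multiplicative.toAdd.injective
        funext l
        have h := hχ l 1 1
        rw [mul_one] at h
        have h2 : χ l 1 = 0 := by
          have := add_eq_left.1 h.symm
          exact this
        exact h2
      map_mul' := by
        intro g h
        apply Multiplicative.toAdd.injective
        funext l
        exact hχ l g h }
  let upV : V ≃* ULift.{u} V := MulEquiv.ulift.symm
  let upE : E ≃* ULift.{u} E := MulEquiv.ulift.symm
  obtain ⟨Ψ', hΨ'⟩ := hlift (Q₁ := ULift.{u} V) (Q₂ := ULift.{u} E) (hV.of_equiv upV)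
    (hE.of_equiv upE) ((upV.toMonoidHom.comp θ).comp upE.symm.toMonoidHom)
    ((upV.surjective.comp hθs).comp upE.symm.surjective) (upV.toMonoidHom.comp φ)
  let Ψ : L →* E := upE.symm.toMonoidHom.comp Ψ'
  have hΨ : ∀ g, θ (Ψ g) = φ g := by
    intro g
    have h1 := DFunLike.congr_fun hΨ' g
    exact upV.injective h1
  let f : Fin r → E := fun j => Ψ (a j)
  have hf : ∀ j, θ (f j) = ev j := by
    intro j
    rw [hΨ]
    apply Multiplicative.toAdd.injective
    funext l
    change χ l (a j) = (Pi.single j (1 : ZMod p) : Fin r → ZMod p) l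
    rw [ha, Pi.single_apply]
    by_cases h : j = l
    · simp [h]
    · simp [h, Ne.symm h]
  -- `f` generates `E`
  have hfgen : Subgroup.closure (Set.range f) = ⊤ := by
    by_contra hcon
    obtain ⟨c, hc1, hc2⟩ := exists_char p hE _ hcon
    -- `c` factors through `θ`
    let d : V →* Multiplicative (ZMod p) :=
      AddMonoidHom.toMultiplicative
        (∑ j, (AddMonoidHom.mulLeft (Multiplicative.toAdd (c (Φ' (FreeGroup.of j))))).comp
          (Pi.evalAddMonoidHom (fun _ : Fin r => ZMod p) j))
    have hd : ∀ j, d (ev j) = c (Φ' (FreeGroup.of j)) := by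
      intro j
      apply Multiplicative.toAdd.injective
      change (∑ i, (AddMonoidHom.mulLeft (Multiplicative.toAdd (c (Φ' (FreeGroup.of i))))).comp
          (Pi.evalAddMonoidHom (fun _ : Fin r => ZMod p) i)) (Pi.single j 1) = _
      rw [AddMonoidHom.finsetSum_apply, Finset.sum_eq_single j]
      · simp
      · intro b _ hb
        simp [Pi.single_apply, hb]
      · simp
    have hfac : ∀ x : F, c (Φ' x) = d (θ (Φ' x)) := by
      intro x
      have : (c.comp Φ') = (d.comp (θ.comp Φ')) := by
        apply FreeGroup.ext_hom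
        intro j
        rw [MonoidHom.comp_apply, MonoidHom.comp_apply, MonoidHom.comp_apply, hθ, hd]
      exact DFunLike.congr_fun this x
    have hfac' : ∀ y : E, c y = d (θ y) := by
      intro y
      obtain ⟨x, rfl⟩ := hΦ's y
      exact hfac x
    have hzero : ∀ j, c (Φ' (FreeGroup.of j)) = 1 := by
      intro j
      rw [hfac', hθ, ← hf, ← hfac']
      exact hc1 (Subgroup.subset_closure ⟨j, rfl⟩)
    apply hc2
    ext y
    obtain ⟨x, rfl⟩ := hΦ's y
    have : c.comp Φ' = 1 := by
      apply FreeGroup.ext_hom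
      intro j
      rw [MonoidHom.comp_apply, hzero]
      rfl
    have h3 := DFunLike.congr_fun this x
    rw [MonoidHom.comp_apply] at h3
    rw [h3]
    rfl
  -- the endomorphism
  choose u hu using fun j => hΦ's (f j)
  let σ : F →* F := FreeGroup.lift u
  have hσ : ∀ x, Φ' (σ x) = FreeGroup.lift f x := by
    intro x
    have : Φ'.comp σ = FreeGroup.lift f := by
      apply FreeGroup.ext_hom
      intro j
      simp [σ, hu]
    exact DFunLike.congr_fun this x
  have hker : Φ'.ker ≤ (Φ'.comp σ).ker := by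
    intro x hx
    rw [MonoidHom.mem_ker] at hx ⊢
    rw [MonoidHom.comp_apply, hΦ'1]
    intro t
    have h1 := (hΦ'1 x).1 hx (fun j => FreeGroup.lift t (u j))
    have h2 : (FreeGroup.lift t).comp σ = FreeGroup.lift (fun j => FreeGroup.lift t (u j)) := by
      apply FreeGroup.ext_hom
      intro j
      simp [σ]
    rw [← MonoidHom.comp_apply, h2, h1]
  let η : E → E := fun y => Φ' (σ (Function.surjInv hΦ's y))
  have hη : ∀ x, η (Φ' x) = Φ' (σ x) := by
    intro x
    have h1 : Φ' (Function.surjInv hΦ's (Φ' x)) = Φ' x := Function.surjInv_eq hΦ's _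
    have h2 : x⁻¹ * Function.surjInv hΦ's (Φ' x) ∈ Φ'.ker := by
      rw [MonoidHom.mem_ker, map_mul, map_inv, h1, inv_mul_cancel]
    have h3 := hker h2
    rw [MonoidHom.mem_ker, map_mul, map_inv] at h3
    have h4 := inv_mul_eq_one.1 h3
    exact h4.symm
  have hηs : Function.Surjective η := by
    have hlf : (FreeGroup.lift f : F →* E).range = ⊤ := by
      rw [eq_top_iff, ← hfgen, Subgroup.closure_le]
      rintro _ ⟨j, rfl⟩
      exact ⟨FreeGroup.of j, by simp⟩
    intro y
    have hy : y ∈ (FreeGroup.lift f : F →* E).range := by rw [hlf]; trivial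
    obtain ⟨x, hx⟩ := hy
    refine ⟨Φ' x, ?_⟩
    rw [hη, hσ, hx]
  have hηi : Function.Injective η := Finite.injective_iff_surjective.2 hηs
  apply hw1
  apply hηi
  rw [hη, hσ, ← map_one Φ', hη, map_one, map_one]
  have h5 : FreeGroup.lift f = Ψ.comp (FreeGroup.lift a) := by
    apply FreeGroup.ext_hom
    intro j
    simp [f]
  rw [h5, MonoidHom.comp_apply, hw, map_one]

end Pool.Agent.Helper19.PK
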